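import Pool.Agent.K1H23.PC.Asm
import Pool.Agent.K1H23.PC.T_GR
import Pool.Agent.K1H23.PC.T_T
import Pool.Agent.K1H23.PC.T_LB
import Pool.Agent.K1H23.PC.T_CNT
import Pool.Agent.K1H23.PC.T_TF
import Pool.Agent.K1H23.PC.T_LINE
import Pool.Agent.K1H23.PC.T_K12
import Pool.Agent.K1H23.PC.T_GEO
import Pool.Agent.K1H23.PC.T_L0
import Pool.Agent.K1H23.PC.T_K12C
import Pool.Agent.K1H23.PC.T_INS
import Pool.Agent.K1H23.PC.T_CPY
import Pool.Agent.K1H23.PC.T_LAY
import Pool.Agent.K1H23.PC.T_GEN
import Pool.Agent.K1H23.PC.T_MAIN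
import Pool.Agent.K1H23.PC.T_FRM
import Pool.Agent.K1H23.PC.T_ASM
import Pool.Agent.K1H23.PC.T_BQ
import Pool.Agent.K1H23.PC.T_BM
import Pool.Agent.K1H23.PC.T_BA
import Pool.Agent.K1H23.PC.T_BS
import Pool.Agent.K1H23.PC.T_PR
import Pool.Agent.K1H69.PC.Mem

/-!
# The `2`-polygonal crossing number problem is complete for `∃ℝ`

Deciding whether a graph has a drawing with at most one bend for each edge (`t = 2` segments) and
at most `k` crossings is `∃ℝ`-complete. The reduction goes from systems of equations (sums and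
products of real variables) through ordered patterns of points and lines and a hub-and-rim frame in
which the lines become bundles of chords; clusters of twelve chords with a non-stretchable pattern
force a bend outside of the crossings with the other clusters.
-/

namespace Pool.Agent.Results.MP_3afca2_lc.OneBend

open Pool.Agent.NPC Pool.Agent.NPC.ER Pool.Agent.K1H23.PC

/-- `CR 2` is `∃ℝ`-complete, and every decision problem between `CR 2` and its weak form (the
common points of two edges are only required to be finite in number) is `∃ℝ`-hard. -/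
theorem result :
    ERComplete (lang fun G : Inst => IsInst G ∧ CR 2 G) ∧
      ∀ Q : Inst → Prop, (∀ G, IsInst G → CR 2 G → Q G) → (∀ G, Q G → IsInst G ∧ CRw 2 G) →
        ERHard (lang Q) :=
  main_of t_INST (t_T t_EDS t_INJ) (t_LB t_POS t_EDS) (t_CNT t_POS t_EDS t_INJ t_MIN)
    (t_TF t_POS t_EDS) (t_GEO t_LINE t_K12) t_BS t_K12C t_L0 t_INS
    (t_MAIN t_CPY t_LAY t_GEN t_POS) t_FRM (t_ASM t_EDS t_INJ t_POS t_MIN) t_BQ t_BM t_BA t_PR
    Pool.Agent.K1H69.PC.t_MEM

end Pool.Agent.Results.MP_3afca2_lc.OneBend
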